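import Pool.Agent.Helper95.BG.Goals

set_option autoImplicit false

namespace Pool.Agent.Helper90.BG.PkMAP

open Pool.Agent.Helper95.BG
open Pool.Agent.Helper65.LinSpace Pool.Agent.Helper78 Pool.Agent.Helper78.Mpc
  Pool.Agent.Helper78.Xor Finset

theorem lt01_val {x y : ℕ} (h : x < y) : lt01 x y = 1 := by unfold lt01; rw [if_pos h]

theorem lt01_val' {x y : ℕ} (h : ¬ x < y) : lt01 x y = 0 := by unfold lt01; rw [if_neg h]

theorem thm : G_MAP := by
  intro T f ι c nT Bg MC n₀ idx q τ hD hτ
  obtain ⟨hlt, hinj, hsurj, hdesc⟩ := hD
  classical
  set g : ℕ → ℕ := fun k => if h : ∃ t, idx t = k then τ h.choose else 0 with hg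
  have hgv : ∀ t, g (idx t) = τ t := by
    intro t
    have h : ∃ s, idx s = idx t := ⟨t, rfl⟩
    have h2 : g (idx t) = τ h.choose := by rw [hg]; simp only; rw [dif_pos h]
    rw [h2, hinj h.choose_spec]
  have hgl : ∀ k < nT, g k < 2 ^ q := by
    intro k hk
    obtain ⟨t, rfl⟩ := hsurj k hk
    rw [hgv]; exact hτ t
  have hil : ∀ b < 2, τ (ι (decide (b = 1))) < 2 ^ q := fun b _ => hτ _
  refine ⟨tab (2 ^ q) nT g, tab (2 ^ q) 2 (fun b => τ (ι (decide (b = 1)))), ?_⟩
  intro w y hw hy hlen
  have hlog : Nat.log 2 (num w) = w.length := log_num w
  have hisl : ∀ i t, isL Bg MC (LW w.length) (2 ^ (2 * ll w.length)) (num w) (num y) i t < 2 := by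
    intro i t; unfold isL; exact univ_lt _ _ _ _
  have hd := hdesc w y hw hy
  -- the length
  have hin : ∀ i < mS w.length,
      lt01 0 (∑ t ∈ range nT, isL Bg MC (LW w.length) (2 ^ (2 * ll w.length)) (num w) (num y) i t) =
        if i < (f w y).length then 1 else 0 := by
    intro i hi
    split_ifs with h
    · apply lt01_val
      have hs : (f w y)[i]? = some ((f w y)[i]) := List.getElem?_eq_getElem h
      have h1 := (hd i hi ((f w y)[i])).2 hs
      have h2 : isL Bg MC (LW w.length) (2 ^ (2 * ll w.length)) (num w) (num y) i
          (idx ((f w y)[i])) ≤ ∑ t ∈ range nT,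
            isL Bg MC (LW w.length) (2 ^ (2 * ll w.length)) (num w) (num y) i t :=
        single_le_sum (f := fun t => isL Bg MC (LW w.length) (2 ^ (2 * ll w.length)) (num w) (num y) i t)
          (fun _ _ => Nat.zero_le _) (mem_range.2 (hlt _))
      omega
    · apply lt01_val'
      have h3 : ∑ t ∈ range nT,
            isL Bg MC (LW w.length) (2 ^ (2 * ll w.length)) (num w) (num y) i t = 0 := by
        refine sum_eq_zero fun k hk => ?_
        obtain ⟨t, rfl⟩ := hsurj k (mem_range.1 hk)
        have h1 := hisl i (idx t)
        by_contra h2
        have h4 : isL Bg MC (LW w.length) (2 ^ (2 * ll w.length)) (num w) (num y) i (idx t) = 1 := by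
          omega
        have h5 := (hd i hi t).1 h4
        rw [List.getElem?_eq_none (by omega)] at h5
        exact absurd h5 (by simp)
      omega
  have hL : lenL nT Bg MC (LW w.length) (2 ^ (2 * ll w.length)) (mS w.length) (num w) (num y) =
      (f w y).length := by
    unfold lenL
    rw [sum_congr rfl (fun i hi => hin i (mem_range.1 hi))]
    rw [← sum_filter]
    have h6 : (range (mS w.length)).filter (fun i => i < (f w y).length) =
        range (f w y).length := by
      ext i
      simp only [mem_filter, mem_range]
      omega
    rw [h6]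
    simp
  constructor
  · unfold mL
    rw [hlog, hL]
    simp only [List.length_append, List.length_map]
    omega
  · intro i h
    simp only [List.length_append, List.length_map] at h
    unfold ltL
    rw [hlog]
    by_cases hi : i < w.length
    · rw [lt01_val hi]
      unfold ifz
      rw [if_neg one_ne_zero, dig_num w i hi]
      rw [dig_tab hil (by cases w[i] <;> simp)]
      rw [List.getElem_append_left (by simpa using hi), List.getElem_map]
      cases w[i] <;> simp
    · rw [lt01_val' hi]
      unfold ifz
      rw [if_pos rfl]
      have hj : i - w.length < (f w y).length := by omega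
      have hjm : i - w.length < mS w.length := by omega
      set t0 := (f w y)[i - w.length] with ht0
      have hs : (f w y)[i - w.length]? = some t0 := List.getElem?_eq_getElem hj
      have hsum : ∑ t ∈ range nT,
          isL Bg MC (LW w.length) (2 ^ (2 * ll w.length)) (num w) (num y) (i - w.length) t *
            dig (2 ^ q) (tab (2 ^ q) nT g) t = τ t0 := by
        rw [sum_eq_single (idx t0)]
        · rw [(hd _ hjm t0).2 hs, one_mul, dig_tab hgl (hlt t0), hgv]
        · intro k hk hne
          obtain ⟨t, rfl⟩ := hsurj k (mem_range.1 hk)
          have h1 := hisl (i - w.length) (idx t)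
          have h2 : isL Bg MC (LW w.length) (2 ^ (2 * ll w.length)) (num w) (num y)
              (i - w.length) (idx t) = 0 := by
            by_contra h3
            have h4 : isL Bg MC (LW w.length) (2 ^ (2 * ll w.length)) (num w) (num y)
              (i - w.length) (idx t) = 1 := by omega
            have h5 := (hd _ hjm t).1 h4
            rw [hs] at h5
            apply hne
            rw [Option.some.inj h5]
          rw [h2, zero_mul]
        · intro h7
          exact absurd (mem_range.2 (hlt t0)) h7
      rw [hsum, Nat.mod_eq_of_lt (hτ t0)]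
      rw [List.getElem_append_right (by simpa using (not_lt.1 hi))]
      congr 1
      simp only [List.length_map]
      exact ht0

end Pool.Agent.Helper90.BG.PkMAP
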